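import Pool.Agent.MWGX.StmtsB
import Pool.Agent.Helper44_MWGQ.KAR

/-!
# Row MIA of block MWGX
-/

namespace Pool.Agent.MWGX.H58

open Pool.Agent.Helper14_MV Pool.Agent.Helper2_MV
open Pool.Agent.MWGN (Nm WC WT Tau Ns nl sg nn)
open Pool.Agent.MWGQ (pw Gn E0 A0 P0 bd kr krl Rs)
open Pool.Agent.MWGQ.H44 (ins in_tail In)

/-- **MIA** -/
theorem mia (hp : Pool.Agent.MWGQ.PwxStmt) : MiaStmt := by
  intro n β h hA m τ hτ U V A B S L C
  refine ⟨A ++ (U ++ (bd n L C m ++ (L m ++ pw (n - 1) U))),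
    B ++ τ.flatMap (fun i => S i ++ L i), ?_⟩
  intro Q1 Q2
  have hR : ∀ i ≤ m, In (L i) (V ++ (B ++ τ.flatMap (fun i => S i ++ L i))) := fun i hi =>
    ((in_tail ((hτ.2 i).2 hi)).left B).left V
  have h1 := ins hp h hA (G := Q1 ++ (U ++ (Q2 ++ A))) (X := U) L C ⟨Q1, Q2 ++ A, rfl⟩ m _ hR
  have e : pw n U = pw (n - 1) U ++ U := by
    have hn := h.pos
    have e1 : n = n - 1 + 1 := by omega
    conv_lhs => rw [e1]
    rw [Pool.Agent.MWGQ.H44.pw_succ]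
  unfold Pool.Agent.MWGQ.kr
  rw [e] at h1
  simp only [List.append_assoc] at h1 ⊢
  exact h1

end Pool.Agent.MWGX.H58
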